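import Pool.Agent.H22.CM.Tab2
import Pool.Agent.H42.CM.Eng
import Pool.Agent.H32.CM.TRO

/-! Crew CM, parts S4 and A4. -/

set_option autoImplicit false

namespace H18.CM

open H22.CM Pool.Agent.Y382.PAR

/-- entry of a table -/
def el (L : List (List ℕ)) (i k : ℕ) : ℕ := (L.getD i []).getD k 0

def certS4 : List (List (ℕ × ℕ) × List (ℕ × ℕ)) := [([(0, 10), (0, 8), (0, 4), (0, 1), (0, 18), (0, 22), (0, 21), (0, 15), (0, 16), (0, 5), (2, 17), (2,
  11), (2, 20), (2, 6), (3, 19), (7, 14), (7, 12), (7, 13)], [(0, 23), (0, 19), (0, 18), (0, 6), (0, 12),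
  (0, 2), (0, 1), (0, 15), (0, 17), (0, 8), (0, 20), (0, 4), (0, 16), (0, 9), (0, 14), (0, 5), (3, 21), (3,
  7), (11, 22), (11, 13)]), ([(0, 16), (0, 14), (0, 8), (0, 4), (0, 11), (1, 2), (1, 6), (1, 3), (1, 20),
  (1, 13), (1, 19), (1, 22), (1, 23), (1, 15), (1, 21), (1, 12), (1, 9), (1, 18), (5, 7), (5, 17)], [(0,
  18), (0, 12), (0, 1), (0, 23), (0, 10), (0, 22), (0, 17), (0, 19), (0, 20), (0, 4), (0, 15), (0, 5), (0,
  14), (0, 21), (0, 9), (0, 7), (0, 11), (2, 8), (2, 6), (2, 13), (2, 3)]), ([(0, 6), (0, 19), (0, 9), (1,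
  20), (1, 10), (1, 22), (1, 4), (1, 18), (1, 13), (1, 21), (1, 23), (1, 12), (1, 5), (2, 7), (2, 3), (2,
  8), (2, 11), (2, 17), (15, 16)], [(0, 14), (0, 4), (0, 16), (0, 21), (0, 20), (0, 12), (0, 3), (0, 1),
  (0, 9), (2, 23), (2, 11), (5, 19), (5, 15), (5, 22), (5, 18), (5, 17), (5, 10), (5, 7), (5, 8), (5,
  13)]), ([(0, 13), (0, 21), (0, 1), (0, 8), (0, 5), (0, 19), (0, 16), (0, 20), (0, 17), (0, 12), (0, 4),
  (0, 9), (0, 10), (0, 14), (0, 6), (0, 23), (0, 15), (0, 3), (0, 2), (0, 18), (11, 22)], [(0, 7), (0, 4),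
  (0, 15), (0, 1), (0, 2), (0, 11), (0, 14), (0, 22), (0, 5), (0, 17), (0, 23), (0, 3), (0, 20), (0, 18),
  (6, 9), (6, 8), (6, 16), (6, 21), (6, 19), (6, 10), (6, 12)])]

def invS4 : List ℕ := [0, 1, 2, 4, 3, 5, 6, 7, 12, 18, 13, 19, 8, 10, 14, 20, 16, 22, 9, 11, 15, 21, 17, 23]

lemma opS4 : OpAll 24 (el mulS4) := H42.CM.opAll_of (c := certS4) (by decide +kernel)

lemma ltS4 : ∀ (i : Fin 24) (k : Fin 4), el eltS4 i k < 4 := by decide +kernel

lemma iltS4 : ∀ (i : Fin 24), invS4.getD i 0 < 24 := by decide +kernel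

lemma liS4 : ∀ (i : Fin 24) (k : Fin 4), el eltS4 (invS4.getD i 0) (el eltS4 i k) = k := by
  decide +kernel

lemma riS4 : ∀ (i : Fin 24) (k : Fin 4), el eltS4 i (el eltS4 (invS4.getD i 0) k) = k := by
  decide +kernel

lemma muS4 : ∀ (i j : Fin 24) (k : Fin 4),
    el eltS4 i (el eltS4 j k) = el eltS4 (el mulS4 i j) k := by
  decide +kernel

lemma injS4 : ∀ (i j : Fin 24), (∀ k : Fin 4, el eltS4 i k = el eltS4 j k) → i = j := by
  decide +kernel

/-- the permutation number `i` -/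
def pS4 (i : Fin 24) : Equiv.Perm (Fin 4) where
  toFun k := ⟨el eltS4 i k, ltS4 i k⟩
  invFun k := ⟨el eltS4 (invS4.getD i 0) k, ltS4 ⟨_, iltS4 i⟩ k⟩
  left_inv k := by
    apply Fin.ext
    exact liS4 i k
  right_inv k := by
    apply Fin.ext
    exact riS4 i k

lemma pS4_inj : Function.Injective pS4 := by
  intro i j h
  apply injS4
  intro k
  have := congrArg (fun q : Equiv.Perm (Fin 4) => ((q k : Fin 4) : ℕ)) h
  exact this

lemma pS4_mul (x y z : Fin 24) (h : el mulS4 x y = z) : pS4 x * pS4 y = pS4 z := by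
  ext k
  show el eltS4 x (el eltS4 y k) = el eltS4 z k
  rw [muS4, h]

def certA4 : List (List (ℕ × ℕ) × List (ℕ × ℕ)) := [([(0, 11), (0, 9), (0, 4), (0, 1), (0, 6), (3, 10), (3, 5), (3, 7)], [(0, 8), (0, 1), (0, 2), (0, 5),
  (0, 10), (0, 4), (0, 9), (0, 3), (0, 7), (0, 6)]), ([(0, 9), (0, 11), (0, 8), (0, 2), (0, 10), (1, 6),
  (1, 4), (1, 7), (1, 5), (1, 3)], [(0, 4), (0, 2), (0, 11), (0, 10), (1, 3), (1, 8), (1, 5), (1, 7), (1,
  6)]), ([(0, 7), (0, 9), (0, 5), (0, 2), (0, 4), (3, 11), (3, 8), (3, 10), (3, 6)], [(0, 5), (0, 4), (1,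
  10), (1, 3), (1, 8), (1, 11), (1, 2), (6, 9)]), ([(0, 10), (0, 4), (0, 7), (0, 11), (0, 3), (1, 8), (1,
  9), (1, 5), (1, 6)], [(0, 5), (0, 7), (0, 9), (0, 1), (0, 2), (0, 6), (0, 8), (0, 3), (4, 11)])]

def invA4 : List ℕ := [0, 2, 1, 3, 6, 9, 4, 10, 8, 5, 7, 11]

lemma opA4 : OpAll 12 (el mulA4) := H42.CM.opAll_of (c := certA4) (by decide +kernel)

lemma ltA4 : ∀ (i : Fin 12) (k : Fin 4), el eltA4 i k < 4 := by decide +kernel

lemma iltA4 : ∀ (i : Fin 12), invA4.getD i 0 < 12 := by decide +kernel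

lemma liA4 : ∀ (i : Fin 12) (k : Fin 4), el eltA4 (invA4.getD i 0) (el eltA4 i k) = k := by
  decide +kernel

lemma riA4 : ∀ (i : Fin 12) (k : Fin 4), el eltA4 i (el eltA4 (invA4.getD i 0) k) = k := by
  decide +kernel

lemma muA4 : ∀ (i j : Fin 12) (k : Fin 4),
    el eltA4 i (el eltA4 j k) = el eltA4 (el mulA4 i j) k := by
  decide +kernel

lemma injA4 : ∀ (i j : Fin 12), (∀ k : Fin 4, el eltA4 i k = el eltA4 j k) → i = j := by
  decide +kernel

/-- the permutation number `i` -/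
def pA4 (i : Fin 12) : Equiv.Perm (Fin 4) where
  toFun k := ⟨el eltA4 i k, ltA4 i k⟩
  invFun k := ⟨el eltA4 (invA4.getD i 0) k, ltA4 ⟨_, iltA4 i⟩ k⟩
  left_inv k := by
    apply Fin.ext
    exact liA4 i k
  right_inv k := by
    apply Fin.ext
    exact riA4 i k

lemma pA4_inj : Function.Injective pA4 := by
  intro i j h
  apply injA4
  intro k
  have := congrArg (fun q : Equiv.Perm (Fin 4) => ((q k : Fin 4) : ℕ)) h
  exact this

lemma pA4_mul (x y z : Fin 12) (h : el mulA4 x y = z) : pA4 x * pA4 y = pA4 z := by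
  ext k
  show el eltA4 x (el eltA4 y k) = el eltA4 z k
  rw [muA4, h]

theorem t_S4 : S_S4 := by
  have hb : Function.Bijective pS4 := by
    rw [Fintype.bijective_iff_injective_and_card]
    exact ⟨pS4_inj, by simp [Fintype.card_perm, Nat.factorial]⟩
  have hcoo : Coo (Equiv.Perm (Fin 4)) 24 (el mulS4) :=
    ⟨Equiv.ofBijective pS4 hb, fun x y z h => pS4_mul x y z h⟩
  exact (H32.CM.t_TRO _ 24 _ hcoo).1 opS4

lemma signA4 : ∀ i : Fin 12, Equiv.Perm.sign (pA4 i) = 1 := by decide +kernel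

/-- the even permutation number `i` -/
def qA4 (i : Fin 12) : alternatingGroup (Fin 4) :=
  ⟨pA4 i, Equiv.Perm.mem_alternatingGroup.mpr (signA4 i)⟩

theorem t_A4 : S_A4 := by
  have hcard : Fintype.card (alternatingGroup (Fin 4)) = 12 := by
    have h := two_mul_card_alternatingGroup (α := Fin 4)
    rw [Fintype.card_perm, Fintype.card_fin] at h
    have h4 : Nat.factorial 4 = 24 := rfl
    omega
  have hb : Function.Bijective qA4 := by
    rw [Fintype.bijective_iff_injective_and_card]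
    refine ⟨fun i j h => pA4_inj (congrArg Subtype.val h), by rw [hcard]; simp⟩
  have hcoo : Coo (alternatingGroup (Fin 4)) 12 (el mulA4) :=
    ⟨Equiv.ofBijective qA4 hb, fun x y z h => Subtype.ext (pA4_mul x y z h)⟩
  exact (H32.CM.t_TRO _ 12 _ hcoo).1 opA4

end H18.CM
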